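import Pool.Agent.H28.SS.SLF

/-!
# The predictable part is multiplicative (MP_34b97f_an): row FIN
-/

set_option autoImplicit false

open MeasureTheory ProbabilityTheory Filter Topology Finset

namespace Pool.Agent.H28.SS

open Pool.Agent.H89.MT (I1 X pt z1 o1 m1 IsMult lavg QuasiGeneric)
open Pool.Agent.H36.RP (S past past_le remote remote_le mulI dil Local)
open Pool.Agent.H47.RP (sg)
open Pool.Agent.H49.RPR (sI sI_sq)
open Pool.Agent.H12.RP (dil_cont)
open Pool.Agent.H56.SS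
open Pool.Agent.H28.DS (P meas_P P_bdd int_bdd)

theorem pt_zero (u : ℕ → I1) (n : ℕ) (hn : 1 ≤ n) : pt u n 0 = u n := by
  unfold pt
  rw [if_pos (by omega), add_zero, Int.toNat_natCast]

theorem lavg_congr {N : ℕ} {f g : ℕ → ℝ} (h : ∀ n, 1 ≤ n → f n = g n) : lavg N f = lavg N g := by
  unfold lavg
  congr 1
  refine Finset.sum_congr rfl fun n hn => ?_
  rw [h n (Finset.mem_Icc.1 hn).1]

theorem ev_lim {u : ℕ → I1} {κ : Measure X} {N : ℕ → ℕ}
    (hF : ∀ F : C(X, ℝ), Tendsto (fun k => lavg (N k) fun n => F (pt u n)) atTop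
      (𝓝 (∫ x, F x ∂κ))) {G : X → ℝ} (hG : Continuous G) {c ε : ℝ}
    (h : |∫ x, G x ∂κ - c| < ε) : ∀ᶠ k in atTop, |lavg (N k) (fun n => G (pt u n)) - c| ≤ ε := by
  have h1 := hF ⟨G, hG⟩
  have h2 : Tendsto (fun k => |lavg (N k) (fun n => G (pt u n)) - c|) atTop
      (𝓝 |∫ x, G x ∂κ - c|) := (h1.sub_const c).abs
  exact (h2.eventually_lt_const h).mono fun k hk => hk.le

variable {κ : Measure X} [IsProbabilityMeasure κ]

theorem abs_int_le {f : X → ℝ} (hf : Measurable f) {C : ℝ} (hC : ∀ᵐ x ∂κ, |f x| ≤ C) {ε : ℝ}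
    (hε : 0 < ε) (h : ∫ x, f x ^ 2 ∂κ ≤ ε ^ 2 / 16) : ∫ x, |f x| ∂κ ≤ ε / 4 := by
  have i1 : Integrable (fun x => f x ^ 2) κ := by
    refine int_bdd (C := C ^ 2) (hf.pow_const 2) ?_
    filter_upwards [hC] with x hx
    rw [abs_pow]
    exact pow_le_pow_left₀ (abs_nonneg _) hx 2
  have i2 : Integrable (fun x => |f x|) κ := (int_bdd hf hC).abs
  have h1 : ∫ x, |f x| ∂κ ≤ ∫ x, (ε / 8 + 2 / ε * f x ^ 2) ∂κ := by
    refine integral_mono i2 ((integrable_const _).add (i1.const_mul _)) fun x => ?_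
    show |f x| ≤ ε / 8 + 2 / ε * f x ^ 2
    have h2 := sq_nonneg (|f x| - ε / 4)
    have h3 : |f x| ^ 2 = f x ^ 2 := sq_abs _
    have h4 : 2 / ε * f x ^ 2 = 2 * f x ^ 2 / ε := by ring
    rw [h4, ← sub_le_iff_le_add', le_div_iff₀ hε]
    nlinarith
  refine h1.trans ?_
  rw [integral_add (integrable_const _) (i1.const_mul _), integral_const_mul, integral_const]
  simp only [probReal_univ, smul_eq_mul, one_mul]
  have h2 : 2 / ε * ∫ x, f x ^ 2 ∂κ ≤ 2 / ε * (ε ^ 2 / 16) :=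
    mul_le_mul_of_nonneg_left h (by positivity)
  have h3 : 2 / ε * (ε ^ 2 / 16) = ε / 8 := by
    field_simp
    ring
  linarith

/-- [FIN] The theorem, summable case. -/
theorem fin_sum (hA : T_APY) (hSLF : T_SLF) (hM : T_MUL) (u : ℕ → I1) (hu : IsMult u)
    (hs : Summable (fun p : ℕ => if p.Prime then (1 - |(u p : ℝ)|) / p else 0))
    (N : ℕ → ℕ) (hN : Tendsto N atTop atTop)
    (hF : ∀ F : C(X, ℝ), Tendsto (fun k => lavg (N k) fun n => F (pt u n)) atTop
      (𝓝 (∫ x, F x ∂κ))) (ε : ℝ) (m : ℕ) (hε : 0 < ε) (hm : 0 < m) :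
    ∃ (H : ℕ) (φ : (Fin H → I1) → ℝ), Continuous φ ∧ (∀ y, |φ y| ≤ 1) ∧
        (∀ᶠ k in atTop, |lavg (N k) (fun n => (u n : ℝ) * loc m H φ (pt u n)) -
            ∫ x, P0 κ x ^ 2 ∂κ| ≤ ε ∧
          |lavg (N k) (fun n => loc m H φ (pt u n) ^ 2) - ∫ x, P0 κ x ^ 2 ∂κ| ≤ ε) ∧
        (∀ (L : ℕ) (ψ : (Fin L → I1) → ℝ), Continuous ψ → (∀ y, |ψ y| ≤ 1) → ∀ᶠ k in atTop,
          |lavg (N k) (fun n => ((u n : ℝ) - loc m H φ (pt u n)) * loc 1 L ψ (pt u n))| ≤ ε) ∧
        (∃ E : Set ℕ, Thin E ∧ ∀ p : ℕ, p.Prime → p ∉ E → ∀ᶠ k in atTop,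
          lavg (N k) (fun n => (loc m H φ (pt u n) -
            (sgn (u p) : ℝ) * loc m H φ (dil (sgn (u p)) p (pt u n))) ^ 2) ≤ ε) ∧
        (∃ C : ℝ, ∀ F : Finset ℕ, (∀ p ∈ F, p.Prime) → ∀ᶠ k in atTop,
          ∑ p ∈ F, (1 / (p : ℝ)) * lavg (N k) (fun n => (loc m H φ (pt u (p * n)) -
            (u p : ℝ) * loc m H φ (pt u n)) ^ 2) ≤ C + ε * ∑ p ∈ F, 1 / (p : ℝ)) := by
  have hκ : QuasiGeneric u κ := ⟨inferInstance, N, hN, hF⟩
  have hpred := Pool.Agent.H47.RPR.pred_rem u hu κ hκ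
  set e : ℝ := min (ε ^ 2 / 16) (ε / 36) with he
  have he0 : 0 < e := lt_min (by positivity) (by positivity)
  have he1 : e ≤ ε ^ 2 / 16 := min_le_left _ _
  have he2 : e ≤ ε / 36 := min_le_right _ _
  obtain ⟨H, φ, hφ, hb, hd⟩ := hA κ m e he0
  set b : X → ℝ := loc m H φ with hbdef
  have hbc : Continuous b := loc_cont m H hφ
  have hbm : Measurable[past (-1)] b := loc_meas m H hm hφ
  have hb1 : ∀ x, |b x| ≤ 1 := fun x => hb _
  have hPm : Measurable (P0 κ) := meas_P (κ := κ) 0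
  have hPb : ∀ᵐ x ∂κ, |P0 κ x| ≤ 1 := P_bdd (κ := κ) 0
  have hdm : Measurable fun x => P0 κ x - b x := hPm.sub hbc.measurable
  have hdb : ∀ᵐ x ∂κ, |P0 κ x - b x| ≤ 2 := by
    filter_upwards [hPb] with x hx
    refine (abs_sub _ _).trans ?_
    have := hb1 x
    linarith
  have hI : ∫ x, |P0 κ x - b x| ∂κ ≤ ε / 4 := abs_int_le hdm hdb hε (hd.trans he1)
  have hdi : Integrable (fun x => |P0 κ x - b x|) κ := (int_bdd hdm hdb).abs
  have iP2 : Integrable (fun x => P0 κ x ^ 2) κ := by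
    refine int_bdd (C := 1) (hPm.pow_const 2) ?_
    filter_upwards [hPb] with x hx
    rw [abs_pow]
    exact pow_le_one₀ (abs_nonneg _) hx
  have iPb : Integrable (fun x => P0 κ x * b x) κ := by
    refine int_bdd (C := 1) (hPm.mul hbc.measurable) ?_
    filter_upwards [hPb] with x hx
    rw [abs_mul]
    exact mul_le_one₀ hx (abs_nonneg _) (hb1 x)
  have ib2 : Integrable (fun x => b x ^ 2) κ := by
    refine int_bdd (C := 1) (hbc.measurable.pow_const 2) (Eventually.of_forall fun x => ?_)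
    rw [abs_pow]
    exact pow_le_one₀ (abs_nonneg _) (hb1 x)
  -- the first two means
  have c1 : |∫ x, (x 0 : ℝ) * b x ∂κ - ∫ x, P0 κ x ^ 2 ∂κ| < ε := by
    rw [pf_PRM κ hpred b 1 hbm hb1, ← integral_sub iPb iP2]
    refine lt_of_le_of_lt (abs_integral_le_integral_abs.trans ?_) (by linarith : ε / 4 < ε)
    refine le_trans (integral_mono_ae (iPb.sub iP2).abs hdi ?_) hI
    filter_upwards [hPb] with x hx
    show |P0 κ x * b x - P0 κ x ^ 2| ≤ |P0 κ x - b x|
    have h1 : P0 κ x * b x - P0 κ x ^ 2 = -(P0 κ x * (P0 κ x - b x)) := by ring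
    rw [h1, abs_neg, abs_mul]
    exact mul_le_of_le_one_left (abs_nonneg _) hx
  have c2 : |∫ x, b x ^ 2 ∂κ - ∫ x, P0 κ x ^ 2 ∂κ| < ε := by
    rw [← integral_sub ib2 iP2]
    refine lt_of_le_of_lt (abs_integral_le_integral_abs.trans ?_) (by linarith : 2 * (ε / 4) < ε)
    have h0 : ∫ x, |b x ^ 2 - P0 κ x ^ 2| ∂κ ≤ ∫ x, 2 * |P0 κ x - b x| ∂κ := by
      refine integral_mono_ae (ib2.sub iP2).abs (hdi.const_mul 2) ?_
      filter_upwards [hPb] with x hx
      show |b x ^ 2 - P0 κ x ^ 2| ≤ 2 * |P0 κ x - b x|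
      have h1 : b x ^ 2 - P0 κ x ^ 2 = -((b x + P0 κ x) * (P0 κ x - b x)) := by ring
      rw [h1, abs_neg, abs_mul]
      refine mul_le_mul_of_nonneg_right ((abs_add_le _ _).trans ?_) (abs_nonneg _)
      have := hb1 x
      linarith
    refine h0.trans ?_
    rw [integral_const_mul]
    linarith
  -- the dilations
  obtain ⟨E, hE, hEp⟩ := hSLF u hu hs κ hκ m H φ hm hφ hb (2 * e) (by
    have : ∫ x, (P0 κ x - loc m H φ x) ^ 2 ∂κ ≤ e := hd
    linarith)
  have c3 : ∀ p : ℕ, p.Prime → p ∉ E →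
      ∫ x, (b x - (sgn (u p) : ℝ) * b (dil (sgn (u p)) p x)) ^ 2 ∂κ ≤ 6 * e := by
    intro p hp hpE
    have h1 := hEp p hp hpE
    set s : I1 := sgn (u p) with hsdef
    have hsa : |(s : ℝ)| = 1 := sgn_abs _
    have hdc : Continuous fun x => b (dil s p x) := hbc.comp (dil_cont s p)
    have hsb : ∀ x, |(s : ℝ) * b (dil s p x)| ≤ 1 := fun x => by
      rw [abs_mul, hsa, one_mul]
      exact hb1 _
    have j1 : Integrable (fun x => (P0 κ x - b x) ^ 2) κ := by
      refine int_bdd (C := 2 ^ 2) (hdm.pow_const 2) ?_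
      filter_upwards [hdb] with x hx
      rw [abs_pow]
      exact pow_le_pow_left₀ (abs_nonneg _) hx 2
    have j2 : Integrable (fun x => (P0 κ x - (s : ℝ) * b (dil s p x)) ^ 2) κ := by
      refine int_bdd (C := 2 ^ 2) ((hPm.sub (hdc.measurable.const_mul _)).pow_const 2) ?_
      filter_upwards [hPb] with x hx
      rw [abs_pow]
      refine pow_le_pow_left₀ (abs_nonneg _) ((abs_sub _ _).trans ?_) 2
      have := hsb x
      linarith
    have j3 : Integrable (fun x => (b x - (s : ℝ) * b (dil s p x)) ^ 2) κ := by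
      refine int_bdd (C := 2 ^ 2) ((hbc.measurable.sub (hdc.measurable.const_mul _)).pow_const 2)
        (Eventually.of_forall fun x => ?_)
      rw [abs_pow]
      refine pow_le_pow_left₀ (abs_nonneg _) ((abs_sub _ _).trans ?_) 2
      have h2 := hsb x
      have h3 := hb1 x
      linarith
    have h2 : ∫ x, (b x - (s : ℝ) * b (dil s p x)) ^ 2 ∂κ ≤
        ∫ x, (2 * (P0 κ x - b x) ^ 2 + 2 * (P0 κ x - (s : ℝ) * b (dil s p x)) ^ 2) ∂κ := by
      refine integral_mono j3 ((j1.const_mul 2).add (j2.const_mul 2)) fun x => ?_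
      show (b x - (s : ℝ) * b (dil s p x)) ^ 2 ≤
        2 * (P0 κ x - b x) ^ 2 + 2 * (P0 κ x - (s : ℝ) * b (dil s p x)) ^ 2
      nlinarith [sq_nonneg ((P0 κ x - b x) + (P0 κ x - (s : ℝ) * b (dil s p x)))]
    rw [integral_add (j1.const_mul 2) (j2.const_mul 2), integral_const_mul,
      integral_const_mul] at h2
    have h3 : ∫ x, (P0 κ x - b x) ^ 2 ∂κ ≤ e := hd
    have h4 : ∫ x, (P0 κ x - (s : ℝ) * b (dil s p x)) ^ 2 ∂κ ≤ 2 * e := h1
    linarith
  obtain ⟨C, hC⟩ := hM u hu hs κ N hN hF m H φ hφ hb (6 * e) E (by positivity) hE c3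
  refine ⟨H, φ, hφ, hb, ?_, ?_, ⟨E, hE, ?_⟩, ⟨C, ?_⟩⟩
  · have hc : Continuous fun x : X => (x 0 : ℝ) * b x :=
      (continuous_subtype_val.comp (continuous_apply 0)).mul hbc
    filter_upwards [ev_lim hF hc c1, ev_lim hF (hbc.pow 2) c2] with k h1 h2
    refine ⟨?_, h2⟩
    have h3 : lavg (N k) (fun n => (u n : ℝ) * loc m H φ (pt u n)) =
        lavg (N k) (fun n => ((pt u n 0 : I1) : ℝ) * b (pt u n)) :=
      lavg_congr fun n hn => by rw [pt_zero u n hn]
    rw [h3]
    exact h1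
  · intro L ψ hψ hψb
    have hψc : Continuous (loc 1 L ψ) := loc_cont 1 L hψ
    have hψm : Measurable[past (-1)] (loc 1 L ψ) := loc_meas 1 L one_pos hψ
    have hψ1 : ∀ x, |loc 1 L ψ x| ≤ 1 := fun x => hψb _
    have hc : Continuous fun x : X => ((x 0 : ℝ) - b x) * loc 1 L ψ x :=
      ((continuous_subtype_val.comp (continuous_apply 0)).sub hbc).mul hψc
    have i1 : Integrable (fun x : X => (x 0 : ℝ) * loc 1 L ψ x) κ := by
      refine int_bdd (C := 1)
        ((continuous_subtype_val.comp (continuous_apply 0)).mul hψc).measurable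
        (Eventually.of_forall fun x => ?_)
      rw [abs_mul]
      exact mul_le_one₀ (abs_le.2 (x 0).2) (abs_nonneg _) (hψ1 x)
    have i2 : Integrable (fun x : X => b x * loc 1 L ψ x) κ := by
      refine int_bdd (C := 1) (hbc.mul hψc).measurable (Eventually.of_forall fun x => ?_)
      rw [abs_mul]
      exact mul_le_one₀ (hb1 x) (abs_nonneg _) (hψ1 x)
    have i3 : Integrable (fun x : X => P0 κ x * loc 1 L ψ x) κ := by
      refine int_bdd (C := 1) (hPm.mul hψc.measurable) ?_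
      filter_upwards [hPb] with x hx
      rw [abs_mul]
      exact mul_le_one₀ hx (abs_nonneg _) (hψ1 x)
    have c4 : |∫ x : X, ((x 0 : ℝ) - b x) * loc 1 L ψ x ∂κ - 0| < ε := by
      have h1 : ∫ x : X, ((x 0 : ℝ) - b x) * loc 1 L ψ x ∂κ =
          ∫ x : X, (P0 κ x * loc 1 L ψ x - b x * loc 1 L ψ x) ∂κ := by
        rw [integral_sub i3 i2, ← pf_PRM κ hpred _ 1 hψm hψ1, ← integral_sub i1 i2]
        refine integral_congr_ae (Eventually.of_forall fun x => ?_)
        show ((x 0 : ℝ) - b x) * loc 1 L ψ x = (x 0 : ℝ) * loc 1 L ψ x - b x * loc 1 L ψ x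
        ring
      rw [h1, sub_zero]
      refine lt_of_le_of_lt (abs_integral_le_integral_abs.trans ?_) (by linarith : ε / 4 < ε)
      refine le_trans (integral_mono (i3.sub i2).abs hdi fun x => ?_) hI
      show |P0 κ x * loc 1 L ψ x - b x * loc 1 L ψ x| ≤ |P0 κ x - b x|
      rw [← sub_mul, abs_mul]
      exact mul_le_of_le_one_right (abs_nonneg _) (hψ1 x)
    filter_upwards [ev_lim hF hc c4] with k h1
    rw [sub_zero] at h1
    have h3 : lavg (N k) (fun n => ((u n : ℝ) - loc m H φ (pt u n)) * loc 1 L ψ (pt u n)) =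
        lavg (N k) (fun n => (((pt u n 0 : I1) : ℝ) - b (pt u n)) * loc 1 L ψ (pt u n)) :=
      lavg_congr fun n hn => by rw [pt_zero u n hn]
    rw [h3]
    exact h1
  · intro p hp hpE
    have hc : Continuous fun x : X => (b x - (sgn (u p) : ℝ) * b (dil (sgn (u p)) p x)) ^ 2 :=
      (hbc.sub (continuous_const.mul (hbc.comp (dil_cont _ p)))).pow 2
    have c5 : |∫ x, (b x - (sgn (u p) : ℝ) * b (dil (sgn (u p)) p x)) ^ 2 ∂κ - 0| < ε := by
      rw [sub_zero, abs_of_nonneg (integral_nonneg fun x => sq_nonneg _)]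
      have := c3 p hp hpE
      linarith
    filter_upwards [ev_lim hF hc c5] with k h1
    rw [sub_zero] at h1
    exact (le_abs_self _).trans h1
  · intro F hFp
    filter_upwards [hC F hFp] with k hk
    refine hk.trans ?_
    have h1 : (0 : ℝ) ≤ ∑ p ∈ F, 1 / (p : ℝ) := Finset.sum_nonneg fun p _ => by positivity
    have h2 : 3 * (6 * e) * ∑ p ∈ F, 1 / (p : ℝ) ≤ ε * ∑ p ∈ F, 1 / (p : ℝ) :=
      mul_le_mul_of_nonneg_right (by linarith) h1
    linarith

/-- [FIN] The theorem. -/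
theorem pf_FIN (hA : T_APY) (hSLF : T_SLF) (hM : T_MUL) : T_FIN := by
  intro u hu κ _ N hN hF
  have hκ : QuasiGeneric u κ := ⟨inferInstance, N, hN, hF⟩
  have hfin := (Pool.Agent.H47.RPR.final' u hu κ hκ).2.2.2
  have hPm : Measurable (P0 κ) := meas_P (κ := κ) 0
  have hPb : ∀ᵐ x ∂κ, |P0 κ x| ≤ 1 := P_bdd (κ := κ) 0
  have iP2 : Integrable (fun x => P0 κ x ^ 2) κ := by
    refine int_bdd (C := 1) (hPm.pow_const 2) ?_
    filter_upwards [hPb] with x hx
    rw [abs_pow]
    exact pow_le_one₀ (abs_nonneg _) hx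
  refine ⟨∫ x, P0 κ x ^ 2 ∂κ, rfl, ?_, ?_⟩
  · rw [hfin]
    constructor
    · intro h
      have h1 : ∫ x, P0 κ x ^ 2 ∂κ = ∫ _x : X, (0 : ℝ) ∂κ := by
        refine integral_congr_ae ?_
        filter_upwards [h] with x hx
        have hx' : P0 κ x = 0 := hx
        show P0 κ x ^ 2 = 0
        rw [hx']
        norm_num
      rw [h1, integral_zero]
    · intro h
      have h1 := (integral_eq_zero_iff_of_nonneg (fun x => sq_nonneg (P0 κ x)) iP2).1 h
      filter_upwards [h1] with x hx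
      have hx' : P0 κ x ^ 2 = 0 := hx
      exact pow_eq_zero_iff two_ne_zero |>.1 hx'
  · intro ε m hε hm
    by_cases hs : Summable (fun p : ℕ => if p.Prime then (1 - |(u p : ℝ)|) / p else 0)
    · exact fin_sum hA hSLF hM u hu hs N hN hF ε m hε hm
    · have h0 := Pool.Agent.H13.RPR.pf_RZE Pool.Agent.H1.RPR.pf_RZA u hu hs κ hκ
      have hP : P0 κ =ᵐ[κ] 0 := by
        have h1 : (fun x : X => (x 0 : ℝ)) =ᵐ[κ] 0 := by
          filter_upwards [h0] with x hx
          exact hx 0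
        refine (condExp_congr_ae h1).trans ?_
        rw [condExp_zero]
      have hc : ∫ x, P0 κ x ^ 2 ∂κ = 0 := by
        have h1 : ∫ x, P0 κ x ^ 2 ∂κ = ∫ _x : X, (0 : ℝ) ∂κ := by
          refine integral_congr_ae ?_
          filter_upwards [hP] with x hx
          show P0 κ x ^ 2 = 0
          rw [hx, Pi.zero_apply]
          norm_num
        rw [h1, integral_zero]
      have hl0 : ∀ M : ℕ, lavg M (fun _ => (0 : ℝ)) = 0 := fun M => by
        unfold lavg
        simp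
      have hlz : ∀ x : X, loc m 0 (fun _ => 0) x = 0 := fun x => rfl
      refine ⟨0, fun _ => 0, continuous_const, fun _ => by simp, ?_, ?_, ⟨∅, ?_, ?_⟩, ⟨0, ?_⟩⟩
      · refine Eventually.of_forall fun k => ?_
        rw [hc]
        simp only [hlz, mul_zero, sub_zero, hl0, abs_zero]
        refine ⟨hε.le, ?_⟩
        norm_num [hl0]
        exact hε.le
      · intro L ψ hψ hψb
        have hψc : Continuous (loc 1 L ψ) := loc_cont 1 L hψ
        have hcc : Continuous fun x : X => (x 0 : ℝ) * loc 1 L ψ x :=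
          (continuous_subtype_val.comp (continuous_apply 0)).mul hψc
        have c4 : |∫ x : X, (x 0 : ℝ) * loc 1 L ψ x ∂κ - 0| < ε := by
          have h1 : ∫ x : X, (x 0 : ℝ) * loc 1 L ψ x ∂κ = ∫ _x : X, (0 : ℝ) ∂κ := by
            refine integral_congr_ae ?_
            filter_upwards [h0] with x hx
            show (x 0 : ℝ) * loc 1 L ψ x = 0
            rw [hx 0, zero_mul]
          rw [h1, integral_zero, sub_zero, abs_zero]
          exact hε
        filter_upwards [ev_lim hF hcc c4] with k h1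
        rw [sub_zero] at h1
        have h3 : lavg (N k) (fun n => ((u n : ℝ) - loc m 0 (fun _ => 0) (pt u n)) *
            loc 1 L ψ (pt u n)) =
            lavg (N k) (fun n => ((pt u n 0 : I1) : ℝ) * loc 1 L ψ (pt u n)) :=
          lavg_congr fun n hn => by rw [pt_zero u n hn, hlz, sub_zero]
        rw [h3]
        exact h1
      · unfold Thin
        rw [Set.indicator_empty]
        exact summable_zero
      · intro p _ _
        refine Eventually.of_forall fun k => ?_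
        simp only [hlz, mul_zero, sub_zero]
        norm_num [hl0]
        exact hε.le
      · intro F _
        refine Eventually.of_forall fun k => ?_
        have h1 : (0 : ℝ) ≤ ∑ p ∈ F, 1 / (p : ℝ) := Finset.sum_nonneg fun p _ => by positivity
        have h2 : ∑ p ∈ F, (1 / (p : ℝ)) * lavg (N k) (fun n => (loc m 0 (fun _ => 0)
            (pt u (p * n)) - (u p : ℝ) * loc m 0 (fun _ => 0) (pt u n)) ^ 2) = 0 := by
          refine Finset.sum_eq_zero fun p _ => ?_
          simp only [hlz, mul_zero, sub_zero]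
          norm_num [hl0]
        rw [h2, zero_add]
        exact mul_nonneg hε.le h1

end Pool.Agent.H28.SS
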