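import Pool.Agent.H56.SS.Tg
import Pool.Agent.H28.DS.Main

/-!
# The predictable part is multiplicative (MP_34b97f_an): rows SLF, PRM
-/

set_option autoImplicit false

open MeasureTheory ProbabilityTheory Filter Topology Finset

namespace Pool.Agent.H28.SS

open Pool.Agent.H89.MT (I1 X pt z1 o1 m1 IsMult lavg)
open Pool.Agent.H36.RP (S past remote remote_le mulI dil Local)
open Pool.Agent.H47.RP (sg)
open Pool.Agent.H49.RPR (sI sI_sq)
open Pool.Agent.H56.SS
open Pool.Agent.H28.DS (P dist_le dil_thin meas_P P_bdd pair int_bdd)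

theorem sgn_eq (t : ℝ) : sgn t = sI t := by
  apply Subtype.ext
  unfold sgn sI sg
  by_cases h : t < 0
  · simp only [h, if_true]
    rfl
  · simp only [h, if_false]
    rfl

theorem sgn_sq (t : ℝ) : ((sgn t : I1) : ℝ) ^ 2 = 1 := by
  rw [sgn_eq]
  exact sI_sq t

theorem sgn_abs (t : ℝ) : |((sgn t : I1) : ℝ)| = 1 := by
  unfold sgn
  split_ifs
  · show |(-1 : ℝ)| = 1
    norm_num
  · show |(1 : ℝ)| = 1
    norm_num

/-- from the predicate to the set -/
theorem thin_set {B : ℕ → Prop} (h : Pool.Agent.H28.DS.Thin B) : Thin {p | p.Prime ∧ B p} := by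
  classical
  unfold Thin
  refine h.congr fun p => ?_
  by_cases hp : p.Prime ∧ B p
  · rw [if_pos hp]
    exact (Set.indicator_of_mem (s := {p : ℕ | p.Prime ∧ B p}) hp
      (fun n : ℕ => (1 : ℝ) / n)).symm
  · rw [if_neg hp]
    exact (Set.indicator_of_notMem (s := {p : ℕ | p.Prime ∧ B p}) hp
      (fun n : ℕ => (1 : ℝ) / n)).symm

theorem thin_union {E E' : Set ℕ} (h : Thin E) (h' : Thin E') : Thin (E ∪ E') := by
  unfold Thin at *
  refine Summable.of_nonneg_of_le (fun n => ?_) (fun n => ?_) (h.add h')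
  · exact Set.indicator_nonneg (fun n _ => by positivity) n
  · have h0 : (0 : ℝ) ≤ 1 / n := by positivity
    have h1 : 0 ≤ E.indicator (fun n : ℕ => (1 : ℝ) / n) n :=
      Set.indicator_nonneg (fun n _ => by positivity) n
    have h2 : 0 ≤ E'.indicator (fun n : ℕ => (1 : ℝ) / n) n :=
      Set.indicator_nonneg (fun n _ => by positivity) n
    by_cases hn : n ∈ E ∪ E'
    · rw [Set.indicator_of_mem hn]
      rcases hn with hn | hn
      · rw [Set.indicator_of_mem hn]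
        linarith
      · rw [Set.indicator_of_mem hn (f := fun n : ℕ => (1 : ℝ) / n)]
        linarith
    · rw [Set.indicator_of_notMem hn]
      linarith

theorem loc_cont (m H : ℕ) {φ : (Fin H → I1) → ℝ} (hφ : Continuous φ) :
    Continuous (loc m H φ) :=
  hφ.comp (continuous_pi fun j => continuous_apply (-((m : ℤ) + (j : ℕ))))

theorem loc_local (m H : ℕ) (φ : (Fin H → I1) → ℝ) : Local (m + H) (loc m H φ) := by
  intro x x' hx
  unfold loc
  congr 1
  funext j
  refine hx _ ?_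
  have hj := j.2
  rw [abs_neg, abs_of_nonneg (by positivity)]
  push_cast
  omega

theorem loc_meas (m H : ℕ) (hm : 0 < m) {φ : (Fin H → I1) → ℝ} (hφ : Continuous φ) :
    Measurable[past (-1)] (loc m H φ) := by
  refine hφ.measurable.comp ?_
  refine @measurable_pi_lambda X (Fin H) (fun _ => I1) (past (-1)) _ _ fun j => ?_
  have h1 : MeasurableSpace.comap (fun x : X => x (-((m : ℤ) + (j : ℕ)))) inferInstance ≤
      past (-1) :=
    le_iSup_of_le (-((m : ℤ) + (j : ℕ))) (le_iSup_of_le (by omega) le_rfl)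
  exact (measurable_iff_comap_le.2 h1)

/-- [PRM] -/
theorem pf_PRM : T_PRM := by
  intro κ _ hpred h C hh hC
  have h1 := pair (κ := κ) hpred 0 (ψ := h) (D := C) (by simpa using hh) hC
  exact h1.symm

/-- [SLF] -/
theorem pf_SLF : T_SLF := by
  intro u hu hsum κ _ hκ m H φ hm hφ hb ε hε
  obtain ⟨hq, hS⟩ := Pool.Agent.H47.RPR.pf_RQG u κ hκ
  have hpred := Pool.Agent.H47.RPR.pred_rem u hu κ hκ
  set b : X → ℝ := loc m H φ with hbdef
  have hbc : Continuous b := loc_cont m H hφ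
  have hbl : Local (m + H) b := loc_local m H φ
  have hbm : Measurable[past (0 - 1)] b := by simpa using loc_meas m H hm hφ
  set d : ℝ := ε - ∫ x, (P0 κ x - b x) ^ 2 ∂κ with hd
  have hd0 : 0 < d := sub_pos.2 hε
  have hc1 : Continuous fun x : X => (x 0 : ℝ) * b x :=
    (continuous_subtype_val.comp (continuous_apply 0)).mul hbc
  have hl1 : Local (m + H) fun x : X => (x 0 : ℝ) * b x := by
    intro x x' hx
    have h1 : x 0 = x' 0 := hx 0 (by rw [abs_zero]; positivity)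
    show (x 0 : ℝ) * b x = (x' 0 : ℝ) * b x'
    rw [h1, hbl x x' hx]
  have hl2 : Local (m + H) fun x : X => b x ^ 2 := by
    intro x x' hx
    show b x ^ 2 = b x' ^ 2
    rw [hbl x x' hx]
  have t1 := dil_thin Pool.Agent.H14.RP.pf_MW
    (Pool.Agent.H12.RPR.pf_RAR Pool.Agent.H95.RPR.pf_RAD) u hu hsum κ hq hc1 hl1
    (ε := d / 4) (by positivity)
  have t2 := dil_thin Pool.Agent.H14.RP.pf_MW
    (Pool.Agent.H12.RPR.pf_RAR Pool.Agent.H95.RPR.pf_RAD) u hu hsum κ hq (hbc.pow 2) hl2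
    (ε := d / 4) (by positivity)
  refine ⟨_, thin_set (t1.or t2), fun p hp hpE => ?_⟩
  have hn : ¬ (d / 4 < |∫ x, (((dil (sI (u p)) p x) 0 : I1) : ℝ) * b (dil (sI (u p)) p x) ∂κ -
        ∫ x : X, (x 0 : ℝ) * b x ∂κ| ∨
      d / 4 < |∫ x, b (dil (sI (u p)) p x) ^ 2 ∂κ - ∫ x, b x ^ 2 ∂κ|) := fun h => hpE ⟨hp, h⟩
  push Not at hn
  obtain ⟨h1, h2⟩ := hn
  have h3 := dist_le hS hpred 0 p hp.pos (sI (u p)) (sI_sq _) (D := 1) hbm (fun x => hb _)
  rw [mul_zero] at h3
  rw [sgn_eq]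
  have h4 : ∫ x, (P κ 0 x - b x) ^ 2 ∂κ = ε - d := by
    rw [hd]
    have : ∫ x, (P κ 0 x - b x) ^ 2 ∂κ = ∫ x, (P0 κ x - b x) ^ 2 ∂κ := rfl
    linarith
  have h5 : ∫ x, (P0 κ x - ((sI (u p) : I1) : ℝ) * b (dil (sI (u p)) p x)) ^ 2 ∂κ =
    ∫ x, (P κ 0 x - ((sI (u p) : I1) : ℝ) * b (dil (sI (u p)) p x)) ^ 2 ∂κ := rfl
  rw [h5]
  linarith

end Pool.Agent.H28.SS
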